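import Pool.Agent.K3h22.EX.Stm6

set_option autoImplicit false

namespace Pool.Agent.K3h95.ET

open Polynomial

/-- the dominant coefficient of a polynomial whose roots are far from the circle `|z| = r` -/
theorem dom (r q : ℝ) (hr : 0 < r) (hq : 0 ≤ q) (s : Multiset ℂ) :
    ∀ (_ : 4 * ((Multiset.card s : ℝ) * (Multiset.card s : ℝ)) * q ^ 2 ≤ 1)
      (_ : ∀ t ∈ s, ‖t‖ ≤ r * q ∨ (t ≠ 0 ∧ r ≤ q * ‖t‖)),
    ∃ a : ℕ, ((s.map (fun t => X - C t)).prod).coeff a ≠ 0 ∧ ∀ l, l ≠ a →
      ‖((s.map (fun t => X - C t)).prod).coeff l‖ * r ^ l ≤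
        2 * (Multiset.card s) * q * (‖((s.map (fun t => X - C t)).prod).coeff a‖ * r ^ a) := by
  induction s using Multiset.induction_on with
  | empty =>
    intro _ _
    refine ⟨0, by simp, ?_⟩
    intro l hl
    simp [Polynomial.coeff_one, hl]
  | cons t s ih =>
    intro hc hs
    rw [Multiset.card_cons] at hc
    push_cast at hc
    set m : ℝ := (Multiset.card s : ℝ) with hm
    have hm0 : 0 ≤ m := by positivity
    obtain ⟨a, ha, hl⟩ := ih (by nlinarith [sq_nonneg q]) (fun u hu => hs u (Multiset.mem_cons_of_mem hu))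
    set P : ℂ[X] := (s.map (fun t => X - C t)).prod with hP
    have hprod : ((t ::ₘ s).map (fun t => X - C t)).prod = P * (X - C t) := by
      rw [Multiset.map_cons, Multiset.prod_cons, mul_comm]
    rw [hprod, Multiset.card_cons]
    push_cast
    -- scaled coefficients
    set G : ℕ → ℝ := fun l => ‖P.coeff l‖ * r ^ l with hG
    have hG0 : ∀ l, 0 ≤ G l := fun l => by positivity
    have hGa : 0 < G a := by
      have : 0 < ‖P.coeff a‖ := norm_pos_iff.mpr ha
      positivity
    have hl' : ∀ l, l ≠ a → G l ≤ 2 * m * q * G a := hl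
    have h1 : 2 * m * q ≤ 1 := by
      nlinarith [sq_nonneg q, sq_nonneg (2 * m * q - 1), mul_nonneg hm0 hq]
    have hle : ∀ l, G l ≤ G a := by
      intro l
      by_cases h : l = a
      · rw [h]
      · calc G l ≤ 2 * m * q * G a := hl' l h
          _ ≤ 1 * G a := by gcongr
          _ = G a := one_mul _
    have key : (2 * m + 1) * q ≤ 2 * (m + 1) * q * (1 - q * (2 * m * q)) := by
      have : q * (2 * m * q) * (2 * (m + 1)) ≤ 1 := by nlinarith [sq_nonneg q]
      nlinarith [mul_nonneg hm0 hq]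
    have hpos : 0 < 1 - q * (2 * m * q) := by
      have : q * (2 * m * q) * (2 * (m + 1)) ≤ 1 := by nlinarith [sq_nonneg q]
      nlinarith [mul_nonneg hm0 hq, mul_nonneg (mul_nonneg hm0 hq) hq]
    -- the end of the step
    have fin : ∀ (T : ℝ) (a' : ℕ), 0 < T →
        T * ((1 - q * (2 * m * q)) * G a) ≤ ‖(P * (X - C t)).coeff a'‖ * r ^ a' →
        (∀ l, l ≠ a' → ‖(P * (X - C t)).coeff l‖ * r ^ l ≤ T * ((2 * m + 1) * q * G a)) →
        ∃ a : ℕ, (P * (X - C t)).coeff a ≠ 0 ∧ ∀ l, l ≠ a →
          ‖(P * (X - C t)).coeff l‖ * r ^ l ≤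
            2 * (m + 1) * q * (‖(P * (X - C t)).coeff a‖ * r ^ a) := by
      intro T a' hT h1 h2
      refine ⟨a', ?_, ?_⟩
      · intro h0
        rw [h0, norm_zero, zero_mul] at h1
        have : 0 < T * ((1 - q * (2 * m * q)) * G a) := by positivity
        linarith
      · intro l hl
        calc ‖(P * (X - C t)).coeff l‖ * r ^ l ≤ T * ((2 * m + 1) * q * G a) := h2 l hl
          _ ≤ T * (2 * (m + 1) * q * (1 - q * (2 * m * q)) * G a) := by gcongr
          _ = 2 * (m + 1) * q * (T * ((1 - q * (2 * m * q)) * G a)) := by ring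
          _ ≤ _ := by gcongr
    have c0 : ‖(P * (X - C t)).coeff 0‖ * r ^ 0 = ‖t‖ * G 0 := by
      simp only [hG, mul_coeff_zero, coeff_sub, coeff_X_zero, coeff_C_zero, zero_sub, norm_mul,
        norm_neg]
      ring
    have cs : ∀ l, ‖(P * (X - C t)).coeff (l + 1)‖ * r ^ (l + 1) ≤ r * G l + ‖t‖ * G (l + 1) := by
      intro l
      rw [coeff_mul_X_sub_C]
      calc ‖P.coeff l - P.coeff (l + 1) * t‖ * r ^ (l + 1)
          ≤ (‖P.coeff l‖ + ‖P.coeff (l + 1) * t‖) * r ^ (l + 1) := by
            gcongr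
            exact norm_sub_le _ _
        _ = r * G l + ‖t‖ * G (l + 1) := by
            rw [norm_mul]; simp only [hG]; ring
    rcases hs t (Multiset.mem_cons_self t s) with ht | ⟨ht0, ht⟩
    · -- small root
      refine fin r (a + 1) hr ?_ ?_
      · have h2 : r * G a - ‖t‖ * G (a + 1) ≤ ‖(P * (X - C t)).coeff (a + 1)‖ * r ^ (a + 1) := by
          rw [coeff_mul_X_sub_C]
          calc r * G a - ‖t‖ * G (a + 1)
              = (‖P.coeff a‖ - ‖P.coeff (a + 1) * t‖) * r ^ (a + 1) := by
                rw [norm_mul]; simp only [hG]; ring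
            _ ≤ _ := by
              gcongr
              exact norm_sub_norm_le _ _
        have h3 : ‖t‖ * G (a + 1) ≤ r * q * (2 * m * q * G a) := by
          gcongr
          exact hl' _ (by omega)
        nlinarith
      · intro l hl
        rcases l with _ | l
        · rw [c0]
          calc ‖t‖ * G 0 ≤ r * q * G a := by
                gcongr
                exact hle 0
            _ ≤ r * ((2 * m + 1) * q * G a) := by
                have : 0 ≤ r * (2 * m * q * G a) := by positivity
                nlinarith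
        · refine (cs l).trans ?_
          have h1 : G l ≤ 2 * m * q * G a := hl' l (by omega)
          have h2 : G (l + 1) ≤ G a := hle _
          calc r * G l + ‖t‖ * G (l + 1) ≤ r * (2 * m * q * G a) + r * q * G a := by
                gcongr
            _ = r * ((2 * m + 1) * q * G a) := by ring
    · -- large root
      have htp : 0 < ‖t‖ := norm_pos_iff.mpr ht0
      refine fin ‖t‖ a htp ?_ ?_
      · rcases a with _ | a
        · rw [c0]
          have : 0 ≤ ‖t‖ * (q * (2 * m * q) * G 0) := by positivity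
          nlinarith
        · have h2 : ‖t‖ * G (a + 1) - r * G a ≤
              ‖(P * (X - C t)).coeff (a + 1)‖ * r ^ (a + 1) := by
            rw [coeff_mul_X_sub_C]
            calc ‖t‖ * G (a + 1) - r * G a
                = (‖P.coeff (a + 1) * t‖ - ‖P.coeff a‖) * r ^ (a + 1) := by
                  rw [norm_mul]; simp only [hG]; ring
              _ ≤ _ := by
                gcongr
                rw [norm_sub_rev]
                exact norm_sub_norm_le _ _
          have h3 : r * G a ≤ q * ‖t‖ * (2 * m * q * G (a + 1)) := by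
            gcongr
            exact hl' _ (by omega)
          nlinarith
      · intro l hl
        rcases l with _ | l
        · rw [c0]
          have h1 := hl' 0 hl
          calc ‖t‖ * G 0 ≤ ‖t‖ * (2 * m * q * G a) := by gcongr
            _ ≤ ‖t‖ * ((2 * m + 1) * q * G a) := by
                have : 0 ≤ ‖t‖ * (q * G a) := by positivity
                nlinarith
        · refine (cs l).trans ?_
          have h1 : G (l + 1) ≤ 2 * m * q * G a := hl' (l + 1) hl
          have h2 : G l ≤ G a := hle _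
          calc r * G l + ‖t‖ * G (l + 1) ≤ q * ‖t‖ * G a + ‖t‖ * (2 * m * q * G a) := by
                gcongr
            _ = ‖t‖ * ((2 * m + 1) * q * G a) := by ring

theorem t_ROOTEX : Pool.Agent.K3h22.EX.S_ROOTEX := by
  intro g E K x hK hE j hj k hk hjk hx hmax
  by_contra hcon
  push Not at hcon
  set D : ℝ := (g.natDegree : ℝ) with hD
  have hD0 : 0 ≤ D := by positivity
  set δ : ℝ := 2 * K + 2 * (D + 1) with hδ
  set r : ℝ := Real.exp x with hr
  set q : ℝ := Real.exp (-δ) with hq
  have hr0 : 0 < r := Real.exp_pos _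
  have hq0 : 0 < q := Real.exp_pos _
  have hg : g ≠ 0 := by
    rintro rfl
    simp at hj
  have hcard : (Multiset.card g.roots : ℝ) ≤ D := by
    rw [hD]
    exact_mod_cast g.card_roots'
  have hm0 : (0 : ℝ) ≤ (Multiset.card g.roots : ℝ) := by positivity
  have hexp : D + 1 ≤ Real.exp D := Real.add_one_le_exp D
  have hq1 : q ≤ Real.exp (-2 * (D + 1)) := by
    rw [hq]; apply Real.exp_le_exp.mpr; rw [hδ]; linarith
  have hsmall : 4 * ((Multiset.card g.roots : ℝ) * (Multiset.card g.roots : ℝ)) * q ^ 2 ≤ 1 := by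
    have h1 : (Multiset.card g.roots : ℝ) ≤ Real.exp (D + 1) := by
      have := Real.add_one_le_exp (D + 1)
      linarith
    have h3 : (2 : ℝ) ≤ Real.exp (D + 1) := by
      have := Real.add_one_le_exp (D + 1)
      linarith
    have h2 : 2 * (Multiset.card g.roots : ℝ) * q ≤ 1 := by
      calc 2 * (Multiset.card g.roots : ℝ) * q
          ≤ Real.exp (D + 1) * Real.exp (D + 1) * Real.exp (-2 * (D + 1)) := by gcongr
        _ = 1 := by rw [← Real.exp_add, ← Real.exp_add, ← Real.exp_zero]; congr 1; ring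
    have h4 : 0 ≤ 2 * (Multiset.card g.roots : ℝ) * q := by positivity
    nlinarith
  obtain ⟨a, ha, hl⟩ := dom r q hr0 hq0.le g.roots hsmall (by
    intro t ht
    have hev : g.eval t = 0 := by
      have := (mem_roots hg).mp ht
      exact this
    by_cases h0 : t = 0
    · left; rw [h0, norm_zero]; positivity
    · have h1 := hcon t hev h0
      have htp : 0 < ‖t‖ := norm_pos_iff.mpr h0
      rcases lt_abs.mp h1 with h | h
      · right
        refine ⟨h0, ?_⟩
        have : x + δ < Real.log ‖t‖ := by linarith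
        have h2 : Real.exp (x + δ) < ‖t‖ := (Real.lt_log_iff_exp_lt htp).mp this
        calc r = q * Real.exp (x + δ) := by
              rw [hr, hq, ← Real.exp_add]; congr 1; ring
          _ ≤ q * ‖t‖ := by gcongr
      · left
        have : Real.log ‖t‖ < x - δ := by linarith
        have h2 : ‖t‖ < Real.exp (x - δ) := (Real.log_lt_iff_lt_exp htp).mp this
        calc ‖t‖ ≤ Real.exp (x - δ) := h2.le
          _ = r * q := by rw [hr, hq, ← Real.exp_add]; congr 1)
  have hfac : g = C g.leadingCoeff * (g.roots.map (fun t => X - C t)).prod :=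
    (IsAlgClosed.splits g).eq_prod_roots
  set P : ℂ[X] := (g.roots.map (fun t => X - C t)).prod with hP
  set c : ℂ := g.leadingCoeff with hc
  have hc0 : c ≠ 0 := leadingCoeff_ne_zero.mpr hg
  have hcn : 0 < ‖c‖ := norm_pos_iff.mpr hc0
  have hco : ∀ l, ‖g.coeff l‖ = ‖c‖ * ‖P.coeff l‖ := by
    intro l
    conv_lhs => rw [hfac, coeff_C_mul, norm_mul]
  have hga : g.coeff a ≠ 0 := by
    rw [← norm_pos_iff, hco]
    have : 0 < ‖P.coeff a‖ := norm_pos_iff.mpr ha
    positivity
  have hgl : ∀ l, l ≠ a → ‖g.coeff l‖ * r ^ l ≤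
      2 * (Multiset.card g.roots) * q * (‖g.coeff a‖ * r ^ a) := by
    intro l h
    rw [hco, hco]
    calc ‖c‖ * ‖P.coeff l‖ * r ^ l = ‖c‖ * (‖P.coeff l‖ * r ^ l) := by ring
      _ ≤ ‖c‖ * (2 * (Multiset.card g.roots) * q * (‖P.coeff a‖ * r ^ a)) :=
          mul_le_mul_of_nonneg_left (hl l h) hcn.le
      _ = _ := by ring
  have hamem : a ∈ g.support := mem_support_iff.mpr hga
  -- one of `j`, `k` is not `a`
  obtain ⟨b, hb, hba, hbx⟩ : ∃ b ∈ g.support, b ≠ a ∧ E b + b * x = E j + j * x := by
    by_cases h : j = a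
    · exact ⟨k, hk, fun h' => hjk (h.trans h'.symm), hx.symm⟩
    · exact ⟨j, hj, h, rfl⟩
  have hlb : Real.exp (Real.log ‖g.coeff b‖ + b * x) = ‖g.coeff b‖ * r ^ b := by
    rw [Real.exp_add, Real.exp_log (norm_pos_iff.mpr (mem_support_iff.mp hb)), hr,
      ← Real.exp_nat_mul]
  have hla : Real.exp (Real.log ‖g.coeff a‖ + a * x) = ‖g.coeff a‖ * r ^ a := by
    rw [Real.exp_add, Real.exp_log (norm_pos_iff.mpr hga), hr, ← Real.exp_nat_mul]
  have e1 := abs_le.mp (hE a hamem)
  have e2 := abs_le.mp (hE b hb)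
  have e3 := hmax a hamem
  have hA : 0 < ‖g.coeff a‖ * r ^ a := by
    have : 0 < ‖g.coeff a‖ := norm_pos_iff.mpr hga
    positivity
  have h1 : Real.exp (-(2 * K)) * (‖g.coeff a‖ * r ^ a) ≤ ‖g.coeff b‖ * r ^ b := by
    rw [← hla, ← hlb, ← Real.exp_add]
    apply Real.exp_le_exp.mpr
    linarith [e1.1, e1.2, e2.1, e2.2]
  have h2 := hgl b hba
  have h3 : Real.exp (-(2 * K)) ≤ 2 * (Multiset.card g.roots) * q := by
    have := h1.trans h2
    exact le_of_mul_le_mul_right this hA
  have h4 : q = Real.exp (-(2 * K)) * Real.exp (-(2 * (D + 1))) := by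
    rw [hq, hδ, ← Real.exp_add]; congr 1; ring
  have h5 : 2 * (D + 1) + 1 ≤ Real.exp (2 * (D + 1)) := Real.add_one_le_exp _
  have h6 : Real.exp (-(2 * (D + 1))) * Real.exp (2 * (D + 1)) = 1 := by
    rw [← Real.exp_add, ← Real.exp_zero]; congr 1; ring
  have h7 : 0 < Real.exp (-(2 * K)) := Real.exp_pos _
  have h8 : 0 < Real.exp (-(2 * (D + 1))) := Real.exp_pos _
  have h9 : (1 : ℝ) ≤ 2 * (Multiset.card g.roots) * Real.exp (-(2 * (D + 1))) := by
    rw [h4] at h3
    have : Real.exp (-(2 * K)) * 1 ≤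
        Real.exp (-(2 * K)) * (2 * (Multiset.card g.roots) * Real.exp (-(2 * (D + 1)))) := by
      calc Real.exp (-(2 * K)) * 1 = Real.exp (-(2 * K)) := mul_one _
        _ ≤ _ := h3
        _ = _ := by ring
    exact le_of_mul_le_mul_left this h7
  have h10 : 2 * (Multiset.card g.roots : ℝ) * Real.exp (-(2 * (D + 1))) ≤
      2 * D * Real.exp (-(2 * (D + 1))) := by gcongr
  have h11 : 2 * D * Real.exp (-(2 * (D + 1))) <
      Real.exp (2 * (D + 1)) * Real.exp (-(2 * (D + 1))) := by
    apply mul_lt_mul_of_pos_right _ h8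
    linarith
  linarith [mul_comm (Real.exp (2 * (D + 1))) (Real.exp (-(2 * (D + 1))))]

end Pool.Agent.K3h95.ET
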